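import Pool.Agent.Lib.MP_146384_al.Bridge

set_option autoImplicit false

namespace Pool.Agent.Results.MP_146384_al.EInfinite

/-- An algebra that is not E-finite has infinitely many bricks of one dimension. -/
theorem result :
    ∀ (k : Type) [Field k] [IsAlgClosed k] (Λ : Type) [Ring Λ] [Algebra k Λ]
      [FiniteDimensional k Λ],
      (¬ ∀ (P Q : Type) [AddCommGroup P] [Module k P] [Module Λ P] [IsScalarTower k Λ P]
          [AddCommGroup Q] [Module k Q] [Module Λ Q] [IsScalarTower k Λ Q]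
          [FiniteDimensional k P] [FiniteDimensional k Q]
          [Module.Projective Λ P] [Module.Projective Λ Q]
          (m : ℕ) (b : Module.Basis (Fin m) k (P →ₗ[Λ] Q)),
          ∃ p : MvPolynomial (Fin m) k, p ≠ 0 ∧
            ∀ x : Fin m → k, MvPolynomial.eval x p ≠ 0 →
              ∀ g : P →ₗ[Λ] Q, ∃ (u : P →ₗ[Λ] P) (v : Q →ₗ[Λ] Q),
                g = (∑ i, x i • b i) ∘ₗ u + v ∘ₗ (∑ i, x i • b i)) →
      ∃ n : ℕ, ∀ N : ℕ, ∃ f : Fin N → (Λ →ₐ[k] Matrix (Fin n) (Fin n) k),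
        (∀ i : Fin N, ∀ X : Matrix (Fin n) (Fin n) k,
            (∀ a : Λ, X * f i a = f i a * X) → X ≠ 0 → IsUnit X) ∧
        ∀ i j : Fin N, i ≠ j →
          ¬ ∃ P : Matrix (Fin n) (Fin n) k, IsUnit P ∧ ∀ a : Λ, P * f i a = f j a * P :=
  fun k _ _ Λ _ _ _ => (Pool.Agent.Lib.MP_146384_al.main k Λ).1

end Pool.Agent.Results.MP_146384_al.EInfinite
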