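import Pool.Agent.Lib.MP_146384_al.Q.Main

set_option autoImplicit false

namespace Pool.Agent.Results.MP_146384_al.SubQuad

/-- One module of projective dimension at most one, or one `τ`-rigid module, over a quotient of `Λ`
or of its opposite algebra, whose endomorphism algebra is small against the square of its dimension,
forces infinitely many bricks of one dimension; the threshold depends on `dim Λ` only. -/
theorem result :
    ∀ d : ℕ, ∃ N : ℕ, ∀ (k : Type) [Field k] [IsAlgClosed k] (Λ : Type) [Ring Λ] [Algebra k Λ]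
      [FiniteDimensional k Λ], Module.finrank k Λ ≤ d →
      ∀ (A : Type) [Ring A] [Algebra k A],
        ((∃ π : Λ →ₐ[k] A, Function.Surjective π) ∨
          ∃ π : Λᵐᵒᵖ →ₐ[k] A, Function.Surjective π) →
        ∀ (P Q : Type) [AddCommGroup P] [Module k P] [Module A P] [IsScalarTower k A P]
          [AddCommGroup Q] [Module k Q] [Module A Q] [IsScalarTower k A Q]
          [FiniteDimensional k P] [FiniteDimensional k Q]
          [Module.Projective A P] [Module.Projective A Q] (f : P →ₗ[A] Q),
          (Function.Injective f ∨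
            ∀ g : P →ₗ[A] Q, ∃ (u : P →ₗ[A] P) (v : Q →ₗ[A] Q), g = f ∘ₗ u + v ∘ₗ f) →
          N * Module.finrank k ((Q ⧸ LinearMap.range f) →ₗ[A] (Q ⧸ LinearMap.range f)) <
            Module.finrank k (Q ⧸ LinearMap.range f) ^ 2 →
          ∃ n : ℕ, ∀ m : ℕ, ∃ r : Fin m → (Λ →ₐ[k] Matrix (Fin n) (Fin n) k),
            (∀ i : Fin m, ∀ X : Matrix (Fin n) (Fin n) k,
                (∀ a : Λ, X * r i a = r i a * X) → X ≠ 0 → IsUnit X) ∧
            ∀ i j : Fin m, i ≠ j →
              ¬ ∃ Y : Matrix (Fin n) (Fin n) k, IsUnit Y ∧ ∀ a : Λ, Y * r i a = r j a * Y :=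
  Pool.Agent.Lib.MP_146384_al.many_of_subquad

end Pool.Agent.Results.MP_146384_al.SubQuad
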