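import Pool.Agent.Lib.MP_146384_al.T.Main

set_option autoImplicit false

namespace Pool.Agent.Results.MP_146384_al.Tame

/-- Tame representation type: in each dimension `d > 0`, every indecomposable representation is
conjugate to a member of one of finitely many one-parameter polynomial families. -/
def TameType (k Λ : Type) [Field k] [Ring Λ] [Algebra k Λ] : Prop :=
  ∀ d : ℕ, ∃ (n : ℕ) (F : Fin n → (Λ →ₐ[k] Matrix (Fin d) (Fin d) (Polynomial k))),
    ∀ ρ : Λ →ₐ[k] Matrix (Fin d) (Fin d) k, 0 < d →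
      (∀ X : Matrix (Fin d) (Fin d) k, (∀ a : Λ, X * ρ a = ρ a * X) → X * X = X →
        X = 0 ∨ X = 1) →
      ∃ (i : Fin n) (c : k) (P : Matrix (Fin d) (Fin d) k), IsUnit P ∧
        ∀ a : Λ, P * ρ a = (F i a).map (Polynomial.eval c) * P

/-- The brick Brauer-Thrall II' conjecture for tame algebras: the frozen statement S00791 with the
extra hypothesis that the algebra has tame representation type. -/
theorem result :
    ∀ (k : Type) [Field k] [IsAlgClosed k] (Λ : Type) [Ring Λ] [Algebra k Λ]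
      [FiniteDimensional k Λ], TameType k Λ →
      ((∀ B : ℕ, ∃ n : ℕ, B < n ∧ ∃ ρ : Λ →ₐ[k] Matrix (Fin n) (Fin n) k,
          ∀ X : Matrix (Fin n) (Fin n) k, (∀ a : Λ, X * ρ a = ρ a * X) → X ≠ 0 → IsUnit X) ∨
        (∃ n : ℕ, ∀ N : ℕ, ∃ f : Fin N → (Λ →ₐ[k] Matrix (Fin n) (Fin n) k),
          (∀ i : Fin N, ∀ X : Matrix (Fin n) (Fin n) k,
              (∀ a : Λ, X * f i a = f i a * X) → X ≠ 0 → IsUnit X) ∧
          ∀ i j : Fin N, i ≠ j →
            ¬ ∃ P : Matrix (Fin n) (Fin n) k, IsUnit P ∧ ∀ a : Λ, P * f i a = f j a * P)) →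
      ∃ n : ℕ, ∀ N : ℕ, ∃ f : Fin N → (Λ →ₐ[k] Matrix (Fin n) (Fin n) k),
        (∀ i : Fin N, ∀ X : Matrix (Fin n) (Fin n) k,
            (∀ a : Λ, X * f i a = f i a * X) → X ≠ 0 → IsUnit X) ∧
        ∀ i j : Fin N, i ≠ j →
          ¬ ∃ P : Matrix (Fin n) (Fin n) k, IsUnit P ∧ ∀ a : Λ, P * f i a = f j a * P :=
  fun k _ _ Λ _ _ _ hT h => Pool.Agent.Lib.MP_146384_al.many_of_tame k Λ hT h

end Pool.Agent.Results.MP_146384_al.Tame
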