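import Pool.Agent.Lib.MP_146384_al.Bridge

set_option autoImplicit false

namespace Pool.Agent.Results.MP_146384_al.TwoSimples

/-- The brick Brauer-Thrall II' conjecture for algebras with at most two simple modules. -/
theorem result :
    ∀ (k : Type) [Field k] [IsAlgClosed k] (Λ : Type) [Ring Λ] [Algebra k Λ]
      [FiniteDimensional k Λ],
      (∀ (S T U : Type) [AddCommGroup S] [Module Λ S] [AddCommGroup T] [Module Λ T]
          [AddCommGroup U] [Module Λ U],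
          IsSimpleModule Λ S → IsSimpleModule Λ T → IsSimpleModule Λ U →
          Nonempty (S ≃ₗ[Λ] T) ∨ Nonempty (S ≃ₗ[Λ] U) ∨ Nonempty (T ≃ₗ[Λ] U)) →
      ((∀ B : ℕ, ∃ n : ℕ, B < n ∧ ∃ ρ : Λ →ₐ[k] Matrix (Fin n) (Fin n) k,
          ∀ X : Matrix (Fin n) (Fin n) k, (∀ a : Λ, X * ρ a = ρ a * X) → X ≠ 0 → IsUnit X) ∨
        (∃ n : ℕ, ∀ N : ℕ, ∃ f : Fin N → (Λ →ₐ[k] Matrix (Fin n) (Fin n) k),
          (∀ i : Fin N, ∀ X : Matrix (Fin n) (Fin n) k,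
              (∀ a : Λ, X * f i a = f i a * X) → X ≠ 0 → IsUnit X) ∧
          ∀ i j : Fin N, i ≠ j →
            ¬ ∃ P : Matrix (Fin n) (Fin n) k, IsUnit P ∧ ∀ a : Λ, P * f i a = f j a * P)) →
      ∃ n : ℕ, ∀ N : ℕ, ∃ f : Fin N → (Λ →ₐ[k] Matrix (Fin n) (Fin n) k),
        (∀ i : Fin N, ∀ X : Matrix (Fin n) (Fin n) k,
            (∀ a : Λ, X * f i a = f i a * X) → X ≠ 0 → IsUnit X) ∧
        ∀ i j : Fin N, i ≠ j →
          ¬ ∃ P : Matrix (Fin n) (Fin n) k, IsUnit P ∧ ∀ a : Λ, P * f i a = f j a * P :=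
  fun k _ _ Λ _ _ _ => (Pool.Agent.Lib.MP_146384_al.main k Λ).2

end Pool.Agent.Results.MP_146384_al.TwoSimples
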